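import Mathlib

/-!
# Determinants of matrices with restricted row patterns

Every admissible row is a sum of two rows each of which has at most one entry `1`, at most one entry
`-1` and zeros elsewhere, and matrices with such rows have determinant `0`, `1` or `-1`.
Multilinearity of the determinant gives the bound `2 ^ m` for `m` rows.
-/

set_option autoImplicit false

namespace Pool.Agent.Results.MP_a06539_co.DetBound

open Finset

/-- The list of the nonzero entries of a row, read from left to right. -/
noncomputable def nonzeroEntries {n : ℕ} (r : Fin n → ℝ) : List ℝ :=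
  open Classical in (List.ofFn r).filter (fun x => decide (x ≠ 0))

/-- A matrix is admissible if the list of nonzero entries of every row, read from left to right, is
one of the six lists `1`; `-1, 2`; `2, -1`; `-1, 1, 1`; `1, -1, 1`; `1, 1, -1`. -/
def Admissible {m n : ℕ} (B : Matrix (Fin m) (Fin n) ℝ) : Prop :=
  ∀ i, nonzeroEntries (B i) = [1] ∨ nonzeroEntries (B i) = [-1, 2] ∨
    nonzeroEntries (B i) = [2, -1] ∨ nonzeroEntries (B i) = [-1, 1, 1] ∨
    nonzeroEntries (B i) = [1, -1, 1] ∨ nonzeroEntries (B i) = [1, 1, -1]

/-- rows with at most one `1`, at most one `-1`, and zeros elsewhere -/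
def Net {α : Type*} (w : α → ℝ) : Prop :=
  (∀ i, w i = 0 ∨ w i = 1 ∨ w i = -1) ∧ (∀ i j, w i = 1 → w j = 1 → i = j) ∧
    (∀ i j, w i = -1 → w j = -1 → i = j)

theorem Net.comp {α β : Type*} {w : α → ℝ} (hw : Net w) {f : β → α} (hf : Function.Injective f) :
    Net (w ∘ f) :=
  ⟨fun i => hw.1 (f i), fun i j h1 h2 => hf (hw.2.1 _ _ h1 h2),
    fun i j h1 h2 => hf (hw.2.2 _ _ h1 h2)⟩

theorem Net.abs_le {α : Type*} {w : α → ℝ} (hw : Net w) (i : α) : |w i| ≤ 1 := by
  rcases hw.1 i with h | h | h <;> simp [h]

theorem net_det (m : ℕ) : ∀ A : Matrix (Fin m) (Fin m) ℝ, (∀ i, Net (A i)) → |A.det| ≤ 1 := by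
  induction m with
  | zero => intro A _; simp
  | succ m ih =>
    intro A hA
    by_cases h : ∃ i j, ∀ k, k ≠ j → A i k = 0
    · obtain ⟨i, j, hij⟩ := h
      rw [Matrix.det_succ_row A i, Finset.sum_eq_single j]
      · rw [abs_mul, abs_mul, abs_pow, abs_neg, abs_one, one_pow, one_mul]
        have h1 := (hA i).abs_le j
        have h2 : |(A.submatrix i.succAbove j.succAbove).det| ≤ 1 := by
          apply ih
          intro k
          exact (hA (i.succAbove k)).comp Fin.succAbove_right_injective
        calc |A i j| * |(A.submatrix i.succAbove j.succAbove).det| ≤ 1 * 1 :=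
              mul_le_mul h1 h2 (abs_nonneg _) zero_le_one
          _ = 1 := one_mul 1
      · intro k _ hk
        rw [hij k hk]; simp
      · intro h; exact absurd (Finset.mem_univ j) h
    · push Not at h
      have hz : A.det = 0 := by
        rw [← Matrix.exists_mulVec_eq_zero_iff]
        refine ⟨fun _ => 1, ?_, ?_⟩
        · intro h0
          have := congrFun h0 0
          simp at this
        · ext i
          simp only [Matrix.mulVec, dotProduct, mul_one, Pi.zero_apply]
          obtain ⟨a, -, ha⟩ := h i 0
          obtain ⟨b, hba, hb⟩ := h i a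
          have hne : a ≠ b := fun h => hba h.symm
          rw [Finset.sum_eq_add (a := a) (b := b) hne]
          · rcases (hA i).1 a with h1 | h1 | h1
            · exact absurd h1 ha
            · rcases (hA i).1 b with h2 | h2 | h2
              · exact absurd h2 hb
              · exact absurd ((hA i).2.1 a b h1 h2) hne
              · rw [h1, h2]; norm_num
            · rcases (hA i).1 b with h2 | h2 | h2
              · exact absurd h2 hb
              · rw [h1, h2]; norm_num
              · exact absurd ((hA i).2.2 a b h1 h2) hne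
          · intro c _ hc
            rcases (hA i).1 c with h3 | h3 | h3
            · exact h3
            · exfalso
              rcases (hA i).1 a with h1 | h1 | h1
              · exact ha h1
              · exact hc.1 ((hA i).2.1 c a h3 h1)
              · rcases (hA i).1 b with h2 | h2 | h2
                · exact hb h2
                · exact hc.2 ((hA i).2.1 c b h3 h2)
                · exact hne ((hA i).2.2 a b h1 h2)
            · exfalso
              rcases (hA i).1 a with h1 | h1 | h1
              · exact ha h1
              · rcases (hA i).1 b with h2 | h2 | h2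
                · exact hb h2
                · exact hne ((hA i).2.1 a b h1 h2)
                · exact hc.2 ((hA i).2.2 c b h3 h2)
              · exact hc.1 ((hA i).2.2 c a h3 h1)
          · intro h; exact absurd (Finset.mem_univ _) h
          · intro h; exact absurd (Finset.mem_univ _) h
      rw [hz]; simp

theorem det_split (m : ℕ) (A U V : Matrix (Fin m) (Fin m) ℝ) (hU : ∀ i, Net (U i))
    (hV : ∀ i, Net (V i)) (hA : A = U + V) : |A.det| ≤ 2 ^ m := by
  have h1 : A.det = ∑ s : Finset (Fin m), Matrix.det (s.piecewise U V : Matrix (Fin m) (Fin m) ℝ) := by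
    have := MultilinearMap.map_add_univ
      (Matrix.detRowAlternating (n := Fin m) (R := ℝ)).toMultilinearMap U V
    rw [hA]
    exact this
  rw [h1]
  calc |∑ s : Finset (Fin m), Matrix.det (s.piecewise U V : Matrix (Fin m) (Fin m) ℝ)|
      ≤ ∑ s : Finset (Fin m), |Matrix.det (s.piecewise U V : Matrix (Fin m) (Fin m) ℝ)| :=
        Finset.abs_sum_le_sum_abs _ _
    _ ≤ ∑ s : Finset (Fin m), (1 : ℝ) := by
        apply Finset.sum_le_sum
        intro s _
        apply net_det
        intro i
        by_cases hi : i ∈ s
        · have h2 : Finset.piecewise (π := fun _ => Fin m → ℝ) s U V i = U i :=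
            Finset.piecewise_eq_of_mem _ _ _ hi
          exact h2 ▸ hU i
        · have h2 : Finset.piecewise (π := fun _ => Fin m → ℝ) s U V i = V i :=
            Finset.piecewise_eq_of_notMem _ _ _ hi
          exact h2 ▸ hV i
    _ = 2 ^ m := by simp

/-- the positions of the nonzero entries -/
theorem expand {n : ℕ} (r : Fin n → ℝ) (P : List (Fin n)) (hP : P.Nodup)
    (hmem : ∀ i, i ∈ P ↔ r i ≠ 0) (i : Fin n) :
    r i = (P.map (fun a => r a * (if i = a then 1 else 0))).sum := by
  classical
  rw [← List.sum_toFinset _ hP]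
  by_cases h : r i = 0
  · rw [Finset.sum_eq_zero]
    · exact h
    · intro a ha
      have ha' : r a ≠ 0 := (hmem a).1 (List.mem_toFinset.1 ha)
      rw [if_neg, mul_zero]
      rintro rfl
      exact ha' h
  · rw [Finset.sum_eq_single i]
    · simp
    · intro b _ hb
      rw [if_neg (fun h => hb h.symm), mul_zero]
    · intro hi
      exact absurd (List.mem_toFinset.2 ((hmem i).2 h)) hi

theorem positions {n : ℕ} (r : Fin n → ℝ) :
    ∃ P : List (Fin n), P.Nodup ∧ (∀ i, i ∈ P ↔ r i ≠ 0) ∧ P.map r = nonzeroEntries r := by
  classical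
  refine ⟨(List.finRange n).filter (fun i => decide (r i ≠ 0)),
    (List.nodup_finRange n).filter _, ?_, ?_⟩
  · intro i; simp
  · unfold nonzeroEntries
    rw [List.ofFn_eq_map, List.filter_map]
    congr 1

theorem net_single {n : ℕ} (a : Fin n) : Net (fun i : Fin n => if i = a then (1 : ℝ) else 0) := by
  refine ⟨?_, ?_, ?_⟩
  · intro i; by_cases h : i = a <;> simp [h]
  · intro i j h1 h2
    by_cases hi : i = a
    · by_cases hj : j = a
      · rw [hi, hj]
      · simp [hj] at h2
    · simp [hi] at h1
  · intro i j h1 _
    by_cases hi : i = a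
    · simp only [hi, if_true] at h1; norm_num at h1
    · simp [hi] at h1

theorem net_zero {n : ℕ} : Net (fun _ : Fin n => (0 : ℝ)) := by
  refine ⟨fun _ => Or.inl rfl, ?_, ?_⟩
  · intro i j h; norm_num at h
  · intro i j h; norm_num at h

theorem net_diff {n : ℕ} (a b : Fin n) (hab : a ≠ b) :
    Net (fun i : Fin n => (if i = a then (1 : ℝ) else 0) - (if i = b then 1 else 0)) := by
  have key : ∀ i : Fin n, ((if i = a then (1 : ℝ) else 0) - (if i = b then 1 else 0) = 0 ∧ i ≠ a ∧ i ≠ b)
      ∨ ((if i = a then (1 : ℝ) else 0) - (if i = b then 1 else 0) = 1 ∧ i = a)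
      ∨ ((if i = a then (1 : ℝ) else 0) - (if i = b then 1 else 0) = -1 ∧ i = b) := by
    intro i
    by_cases hi : i = a
    · right; left
      subst hi
      simp [hab]
    · by_cases hj : i = b
      · right; right
        subst hj
        simp [hi]
      · left; simp [hi, hj]
  refine ⟨?_, ?_, ?_⟩
  · intro i
    rcases key i with h | h | h
    · exact Or.inl h.1
    · exact Or.inr (Or.inl h.1)
    · exact Or.inr (Or.inr h.1)
  · intro i j h1 h2
    simp only at h1 h2
    rcases key i with h | h | h
    · rw [h.1] at h1; norm_num at h1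
    · rcases key j with h' | h' | h'
      · rw [h'.1] at h2; norm_num at h2
      · rw [h.2, h'.2]
      · rw [h'.1] at h2; norm_num at h2
    · rw [h.1] at h1; norm_num at h1
  · intro i j h1 h2
    simp only at h1 h2
    rcases key i with h | h | h
    · rw [h.1] at h1; norm_num at h1
    · rw [h.1] at h1; norm_num at h1
    · rcases key j with h' | h' | h'
      · rw [h'.1] at h2; norm_num at h2
      · rw [h'.1] at h2; norm_num at h2
      · rw [h.2, h'.2]

/-- an admissible row is a sum of two network rows -/
theorem row_split {n : ℕ} (r : Fin n → ℝ)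
    (h : nonzeroEntries r = [1] ∨ nonzeroEntries r = [-1, 2] ∨
    nonzeroEntries r = [2, -1] ∨ nonzeroEntries r = [-1, 1, 1] ∨
    nonzeroEntries r = [1, -1, 1] ∨ nonzeroEntries r = [1, 1, -1]) :
    ∃ u v : Fin n → ℝ, Net u ∧ Net v ∧ r = u + v := by
  obtain ⟨P, hnd, hmem, hP⟩ := positions r
  have hexp := expand r P hnd hmem
  rcases h with h | h | h | h | h | h
  · rw [h] at hP
    obtain ⟨a, t, rfl, ha, ht⟩ := List.map_eq_cons_iff.1 hP
    rw [List.map_eq_nil_iff] at ht
    subst ht
    refine ⟨_, _, net_single a, net_zero, ?_⟩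
    funext i
    rw [hexp i]
    simp [ha]
  · rw [h] at hP
    obtain ⟨a, t, rfl, ha, ht⟩ := List.map_eq_cons_iff.1 hP
    obtain ⟨b, t, rfl, hb, ht⟩ := List.map_eq_cons_iff.1 ht
    rw [List.map_eq_nil_iff] at ht
    subst ht
    have hab : a ≠ b := by
      intro h; subst h; rw [ha] at hb; norm_num at hb
    refine ⟨_, _, net_single b, net_diff b a hab.symm, ?_⟩
    funext i
    rw [hexp i]
    simp only [List.map_cons, List.map_nil, List.sum_cons, List.sum_nil, Pi.add_apply, ha, hb]
    ring
  · rw [h] at hP
    obtain ⟨a, t, rfl, ha, ht⟩ := List.map_eq_cons_iff.1 hP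
    obtain ⟨b, t, rfl, hb, ht⟩ := List.map_eq_cons_iff.1 ht
    rw [List.map_eq_nil_iff] at ht
    subst ht
    have hab : a ≠ b := by
      intro h; subst h; rw [ha] at hb; norm_num at hb
    refine ⟨_, _, net_single a, net_diff a b hab, ?_⟩
    funext i
    rw [hexp i]
    simp only [List.map_cons, List.map_nil, List.sum_cons, List.sum_nil, Pi.add_apply, ha, hb]
    ring
  · rw [h] at hP
    obtain ⟨a, t, rfl, ha, ht⟩ := List.map_eq_cons_iff.1 hP
    obtain ⟨b, t, rfl, hb, ht⟩ := List.map_eq_cons_iff.1 ht
    obtain ⟨c, t, rfl, hc, ht⟩ := List.map_eq_cons_iff.1 ht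
    rw [List.map_eq_nil_iff] at ht
    subst ht
    have hab : a ≠ b := by
      intro h; subst h; rw [ha] at hb; norm_num at hb
    refine ⟨_, _, net_single c, net_diff b a hab.symm, ?_⟩
    funext i
    rw [hexp i]
    simp only [List.map_cons, List.map_nil, List.sum_cons, List.sum_nil, Pi.add_apply, ha, hb, hc]
    ring
  · rw [h] at hP
    obtain ⟨a, t, rfl, ha, ht⟩ := List.map_eq_cons_iff.1 hP
    obtain ⟨b, t, rfl, hb, ht⟩ := List.map_eq_cons_iff.1 ht
    obtain ⟨c, t, rfl, hc, ht⟩ := List.map_eq_cons_iff.1 ht
    rw [List.map_eq_nil_iff] at ht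
    subst ht
    have hab : a ≠ b := by
      intro h; subst h; rw [ha] at hb; norm_num at hb
    refine ⟨_, _, net_single c, net_diff a b hab, ?_⟩
    funext i
    rw [hexp i]
    simp only [List.map_cons, List.map_nil, List.sum_cons, List.sum_nil, Pi.add_apply, ha, hb, hc]
    ring
  · rw [h] at hP
    obtain ⟨a, t, rfl, ha, ht⟩ := List.map_eq_cons_iff.1 hP
    obtain ⟨b, t, rfl, hb, ht⟩ := List.map_eq_cons_iff.1 ht
    obtain ⟨c, t, rfl, hc, ht⟩ := List.map_eq_cons_iff.1 ht
    rw [List.map_eq_nil_iff] at ht
    subst ht
    have hbc : b ≠ c := by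
      intro h; subst h; rw [hc] at hb; norm_num at hb
    refine ⟨_, _, net_single a, net_diff b c hbc, ?_⟩
    funext i
    rw [hexp i]
    simp only [List.map_cons, List.map_nil, List.sum_cons, List.sum_nil, Pi.add_apply, ha, hb, hc]
    ring

/-- For every admissible `m × (m + 1)` matrix `B` and every column `j`, the square matrix obtained by
removing column `j` has determinant of absolute value at most `2 ^ m`. -/
theorem result (m : ℕ) (B : Matrix (Fin m) (Fin (m + 1)) ℝ) (hB : Admissible B) (j : Fin (m + 1)) :
    |(B.submatrix id j.succAbove).det| ≤ 2 ^ m := by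
  choose u v hu hv huv using fun i => row_split (B i) (hB i)
  refine det_split m _ (fun i => u i ∘ j.succAbove) (fun i => v i ∘ j.succAbove) ?_ ?_ ?_
  · intro i; exact (hu i).comp Fin.succAbove_right_injective
  · intro i; exact (hv i).comp Fin.succAbove_right_injective
  · ext i k
    simp only [Matrix.submatrix_apply, id]
    have := congrFun (huv i) (j.succAbove k)
    rw [this]; rfl

end Pool.Agent.Results.MP_a06539_co.DetBound
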